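import Pool.Agent.H54.RH.Targets

set_option autoImplicit false

namespace Pool.Agent.H33.RHX

open Pool.Agent.H54.RH
open Pool.Agent.H54.PM (body IsGon IsEdge Un IsPM ver edg chi Ori)

variable {n : ℕ}

/-- `a` arises from `h` by the letters `p` at `u` and `q` at `v` -/
def Pt (p q : Fin 3) (h a : W n) (u v : Fin n) : Prop :=
  h u = 1 ∧ h v = 1 ∧ u ≠ v ∧ a u = p ∧ a v = q ∧ ∀ w, w ≠ u → w ≠ v → a w = h w

theorem Pt_of {h a : W n} {z y : Fin n} (h1 : h z = 1) (h2 : h y = 1) (h3 : z ≠ y)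
    (h4 : a = Function.update (Function.update h z 0) y 2) : Pt 0 2 h a z y := by
  subst h4
  refine ⟨h1, h2, h3, ?_, ?_, ?_⟩
  · rw [Function.update_of_ne h3, Function.update_self]
  · rw [Function.update_self]
  · intro w hw1 hw2
    rw [Function.update_of_ne hw2, Function.update_of_ne hw1]

theorem Pt_swap {p q : Fin 3} {h a : W n} {u v : Fin n} (H : Pt p q h a u v) : Pt q p h a v u :=
  ⟨H.2.1, H.1, H.2.2.1.symm, H.2.2.2.2.1, H.2.2.2.1, fun w h1 h2 => H.2.2.2.2.2 w h2 h1⟩

theorem core {p q : Fin 3} (hp : p ≠ 1) (hq : q ≠ 1) (hpq : p ≠ q) {h g a a' : W n}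
    {u v v' r s r' s' t' : Fin n} (hne : h ≠ g) (haa : a ≠ a') (H1 : Pt p q h a u v)
    (H2 : Pt p q h a' u v') (H3 : Pt p q g a r s) (H4 : Pt p q g a' r' s') (ht1 : g t' = 1)
    (ht2 : a t' = a' t') (ht3 : a t' ≠ 1) :
    ∃ k l, h k = 1 ∧ h l ≠ 1 ∧ g = sw h k l ∧ a k = h l ∧ a' k = h l := by
  obtain ⟨a1, a2, a3, a4, a5, a6⟩ := H1
  obtain ⟨b1, b2, b3, b4, b5, b6⟩ := H2
  obtain ⟨c1, c2, c3, c4, c5, c6⟩ := H3
  obtain ⟨d1, d2, d3, d4, d5, d6⟩ := H4
  have hvv : v ≠ v' := by
    intro h0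
    apply haa
    funext w
    by_cases w1 : w = u
    · rw [w1, a4, b4]
    by_cases w2 : w = v
    · rw [w2, a5, h0, b5]
    · rw [a6 w w1 w2, b6 w w1 (by rw [← h0]; exact w2)]
  have hdiff : ∀ w, a w ≠ a' w → w = v ∨ w = v' := by
    intro w hw
    by_contra hcon
    push Not at hcon
    by_cases w1 : w = u
    · rw [w1, a4, b4] at hw; exact hw rfl
    · rw [a6 w w1 hcon.1, b6 w w1 hcon.2] at hw; exact hw rfl
  have hav' : a v' = 1 := by rw [a6 v' b3.symm hvv.symm, b2]
  have htr : t' = r := by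
    by_contra hcon
    have hts : t' = s := by
      by_contra h0
      exact ht3 (by rw [c6 t' hcon h0, ht1])
    have hat : a t' = q := by rw [hts, c5]
    have hts' : t' = s' := by
      by_contra h0
      by_cases h1 : t' = r'
      · rw [hat, h1, d4] at ht2; exact hpq ht2.symm
      · rw [d6 t' h1 h0, ht1] at ht2; exact ht3 ht2
    have hrr : r ≠ r' := by
      intro h0
      apply haa
      funext w
      by_cases w1 : w = r
      · rw [w1, c4, h0, d4]
      by_cases w2 : w = s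
      · rw [w2, c5, ← hts, hts', d5]
      · rw [c6 w w1 w2, d6 w (by rw [← h0]; exact w1) (by rw [← hts', hts]; exact w2)]
    have har : a' r = 1 := by
      rw [d6 r hrr (by rw [← hts', hts]; exact c3), c1]
    have h5 := hdiff r (by rw [c4, har]; exact hp)
    rcases h5 with h5 | h5
    · rw [h5, a5] at c4; exact hpq c4.symm
    · rw [h5, hav'] at c4; exact hp c4.symm
  have hat : a t' = p := by rw [htr, c4]
  have htr' : t' = r' := by
    by_contra h0
    by_cases h1 : t' = s'
    · rw [hat, h1, d5] at ht2; exact hpq ht2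
    · rw [d6 t' h0 h1, ht1] at ht2; exact ht3 ht2
  have hrr : r = r' := by rw [← htr, htr']
  have hss : s ≠ s' := by
    intro h0
    apply haa
    funext w
    by_cases w1 : w = r
    · rw [w1, c4, hrr, d4]
    by_cases w2 : w = s
    · rw [w2, c5, h0, d5]
    · rw [c6 w w1 w2, d6 w (by rw [← hrr]; exact w1) (by rw [← h0]; exact w2)]
  have has : a' s = 1 := by rw [d6 s (by rw [← hrr]; exact c3.symm) hss, c2]
  have hsv : s = v := by
    rcases hdiff s (by rw [c5, has]; exact hq) with h5 | h5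
    · exact h5
    · rw [h5, hav'] at c5; exact absurd c5.symm hq
  have hru : r ≠ u := by
    intro h0
    apply hne
    funext w
    by_cases w1 : w = u
    · rw [w1, a1, ← h0, c1]
    by_cases w2 : w = v
    · rw [w2, a2, ← hsv, c2]
    · rw [← a6 w w1 w2, c6 w (by rw [h0]; exact w1) (by rw [hsv]; exact w2)]
  have hhr : h r = p := by
    rw [← a6 r hru (by rw [← hsv]; exact c3), c4]
  refine ⟨u, r, a1, by rw [hhr]; exact hp, ?_, by rw [a4, hhr], by rw [b4, hhr]⟩
  funext w
  unfold sw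
  by_cases w1 : w = u
  · rw [if_pos w1, hhr, w1, ← c6 u hru.symm (by rw [hsv]; exact a3), a4]
  by_cases w2 : w = r
  · rw [if_neg w1, if_pos w2, w2, c1, a1]
  rw [if_neg w1, if_neg w2]
  by_cases w3 : w = v
  · rw [w3, a2, ← hsv, c2]
  · rw [← a6 w w1 w3, c6 w w2 (by rw [hsv]; exact w3)]

theorem pw_inj {a b : W n} (h : pw a = pw b) : a = b := by
  funext t
  have h1 : ((a t).val : ℝ) = ((b t).val : ℝ) := congrFun h t
  apply Fin.ext
  exact_mod_cast h1

theorem pf_HS (_h0 : T_HB) (h1 : T_HE) : T_HS := by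
  intro n h g a a' hh hg _ hne he1 he2
  obtain ⟨b, b', e1, e2, e3, e4, e5, t, e6, e7, e8⟩ := (h1 n h hh _ _).1 he1
  obtain ⟨c, c', f1, f2, f3, f4, f5, t', f6, f7, f8⟩ := (h1 n g hg _ _).1 he2
  have := pw_inj e1; subst this
  have := pw_inj e2; subst this
  have := pw_inj f1; subst this
  have := pw_inj f2; subst this
  obtain ⟨z, y, x1, x2, x3, x4⟩ := e3
  obtain ⟨z', y', y1, y2, y3, y4⟩ := e4
  obtain ⟨r, s, u1, u2, u3, u4⟩ := f3
  obtain ⟨r', s', v1, v2, v3, v4⟩ := f4
  have H1 := Pt_of x1 x2 x3 x4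
  have H2 := Pt_of y1 y2 y3 y4
  have H3 := Pt_of u1 u2 u3 u4
  have H4 := Pt_of v1 v2 v3 v4
  -- where is t
  have ht : t = z ∨ t = y := by
    by_contra hcon
    push Not at hcon
    exact e8 (by rw [H1.2.2.2.2.2 t hcon.1 hcon.2, e6])
  have ht' : t = z' ∨ t = y' := by
    by_contra hcon
    push Not at hcon
    exact e8 (by rw [e7, H2.2.2.2.2.2 t hcon.1 hcon.2, e6])
  rcases ht with ht | ht
  · have htz : t = z' := by
      rcases ht' with h0 | h0
      · exact h0
      · exfalso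
        have k1 : a t = 0 := by rw [ht]; exact H1.2.2.2.1
        have k2 : a' t = 2 := by rw [h0]; exact H2.2.2.2.2.1
        rw [k1, k2] at e7
        exact absurd e7 (by decide)
    have hz : z' = z := by rw [← htz, ht]
    subst hz
    exact core (by decide) (by decide) (by decide) hne e5 H1 H2 H3 H4 f6 f7 f8
  · have hty : t = y' := by
      rcases ht' with h0 | h0
      · exfalso
        have k1 : a t = 2 := by rw [ht]; exact H1.2.2.2.2.1
        have k2 : a' t = 0 := by rw [h0]; exact H2.2.2.2.1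
        rw [k1, k2] at e7
        exact absurd e7 (by decide)
      · exact h0
    have hy : y' = y := by rw [← hty, ht]
    subst hy
    exact core (by decide) (by decide) (by decide) hne e5 (Pt_swap H1) (Pt_swap H2) (Pt_swap H3)
      (Pt_swap H4) f6 f7 f8

end Pool.Agent.H33.RHX
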