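import Pool.Agent.H54.RH.Targets
import Pool.Agent.H82.PMF.FAN

set_option autoImplicit false

namespace Pool.Agent.H33.RHX

open Pool.Agent.H54.RH
open Pool.Agent.H54.PM (body IsGon IsEdge Un IsPM ver edg chi Ori Fan)

theorem sort3 {n : ℕ} (x : Fin n → ℝ) (S : Finset (Fin n)) (h : S.card = 3) :
    ∃ z m y : Fin n, z ≠ m ∧ z ≠ y ∧ m ≠ y ∧ S = {z, m, y} ∧ x z ≤ x m ∧ x m ≤ x y := by
  classical
  obtain ⟨i, j, k, hij, hik, hjk, hs⟩ := Finset.card_eq_three.1 h
  have perm : ∀ a b c d e f : Fin n, (∀ t, (t = a ∨ t = b ∨ t = c) ↔ (t = d ∨ t = e ∨ t = f)) →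
      ({a, b, c} : Finset (Fin n)) = {d, e, f} := by
    intro a b c d e f H
    ext t
    simp only [Finset.mem_insert, Finset.mem_singleton]
    exact H t
  rcases le_total (x i) (x j) with h1 | h1 <;> rcases le_total (x j) (x k) with h2 | h2 <;>
    rcases le_total (x i) (x k) with h3 | h3
  · exact ⟨i, j, k, hij, hik, hjk, hs, h1, h2⟩
  · exact ⟨i, j, k, hij, hik, hjk, hs, h1, h2⟩
  · exact ⟨i, k, j, hik, hij, hjk.symm, by rw [hs]; exact perm _ _ _ _ _ _ (by tauto), h3, h2⟩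
  · exact ⟨k, i, j, hik.symm, hjk.symm, hij, by rw [hs]; exact perm _ _ _ _ _ _ (by tauto), h3, h1⟩
  · exact ⟨j, i, k, hij.symm, hjk, hik, by rw [hs]; exact perm _ _ _ _ _ _ (by tauto), h1, h3⟩
  · exact ⟨j, k, i, hjk, hij.symm, hik.symm, by rw [hs]; exact perm _ _ _ _ _ _ (by tauto), h2, h3⟩
  · exact ⟨k, j, i, hjk.symm, hik.symm, hij.symm, by rw [hs]; exact perm _ _ _ _ _ _ (by tauto), h2, h1⟩
  · exact ⟨k, j, i, hjk.symm, hik.symm, hij.symm, by rw [hs]; exact perm _ _ _ _ _ _ (by tauto), h2, h1⟩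

theorem pf_MF (h0 : T_HB) (h1 : T_LK) (h2 : T_LO) : T_MF := by
  classical
  intro n b M hM x
  have hz : ∃ h ∈ M, x.1 ∈ body (hf h) := by
    have := x.2
    unfold Un hfam at this
    simp only [Finset.mem_image, Set.mem_iUnion, exists_prop] at this
    obtain ⟨B, ⟨g, hg, rfl⟩, hB⟩ := this
    exact ⟨g, hg, hB⟩
  obtain ⟨h, hh, hxh⟩ := hz
  have hact := (hM.three h hh).1
  rw [h0 n h hact] at hxh
  obtain ⟨p1, p2, p3⟩ := hxh
  obtain ⟨z, m, y, q1, q2, q3, q4, q5, q6⟩ := sort3 x.1 (act h) hact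
  have hmem : ∀ t, t ∈ act h ↔ h t = 1 := fun t => by simp [act]
  have hhz : h z = 1 := (hmem z).1 (by rw [q4]; simp)
  have hhm : h m = 1 := (hmem m).1 (by rw [q4]; simp)
  have hhy : h y = 1 := (hmem y).1 (by rw [q4]; simp)
  rw [q4, Finset.sum_insert (by simp [q1, q2]), Finset.sum_insert (by simp [q3]),
    Finset.sum_singleton] at p3
  have bz := p2 z
  have bm := p2 m
  have hby := p2 y
  set v : W n := Function.update (Function.update h z 0) y 2 with hv
  have vz : v z = 0 := by rw [hv, Function.update_of_ne q2, Function.update_self]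
  have vy : v y = 2 := by rw [hv, Function.update_self]
  have vo : ∀ t, t ≠ z → t ≠ y → v t = h t := by
    intro t h1 h2
    rw [hv, Function.update_of_ne h2, Function.update_of_ne h1]
  have hvx : IsVx h v := ⟨z, y, hhz, hhy, q2, rfl⟩
  obtain ⟨d, hd0, r, hd, hL⟩ := h1 n b M hM v ⟨h, hh, hvx⟩
  obtain ⟨e, he⟩ := h2 n b M hM v d r hd hL
  obtain ⟨f⟩ := Pool.Agent.H82.PMF.pf_FAN d hd
  refine ⟨e.trans f.toOpenPartialHomeomorph, ?_⟩
  rw [OpenPartialHomeomorph.trans_source]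
  refine ⟨he x ?_, trivial⟩
  intro t
  by_cases tz : t = z
  · rw [tz, vz]
    exact ⟨fun h => absurd rfl h, fun _ => by linarith⟩
  by_cases ty : t = y
  · rw [ty, vy]
    exact ⟨fun _ => by linarith, fun h => absurd rfl h⟩
  rw [vo t tz ty]
  by_cases tm : t = m
  · rw [tm]
    constructor
    · intro _
      rcases bm.1.lt_or_eq with h3 | h3
      · exact h3
      · exfalso; linarith
    · intro _
      rcases bm.2.lt_or_eq with h3 | h3
      · exact h3
      · exfalso; linarith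
  · have ht : h t ≠ 1 := by
      intro h3
      have h4 := (hmem t).2 h3
      rw [q4] at h4
      simp only [Finset.mem_insert, Finset.mem_singleton] at h4
      tauto
    rw [p1 t ht]
    have hval : ∀ c : Fin 3, c ≠ 1 → (c ≠ 0 → (0 : ℝ) < (c.val : ℝ)) ∧ (c ≠ 2 → (c.val : ℝ) < 2) := by
      intro c hc
      fin_cases c
      · simp
      · exact absurd rfl hc
      · simp
    exact hval _ ht

end Pool.Agent.H33.RHX
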