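import Pool.Agent.H33.RHX.HS
import Pool.Agent.H86.PMF.TR1

set_option autoImplicit false

namespace Pool.Agent.H33.RHX

open Pool.Agent.H54.RH
open Pool.Agent.H54.PM (body IsGon IsEdge Un IsPM ver edg chi Ori)

variable {n : ℕ}

theorem Lm_dist (u v : Fin n → ℝ) (h : ∑ t, (u t - v t) ^ 2 = 2) : dist (Lm n u) (Lm n v) = 1 := by
  have h2 : (0 : ℝ) < Real.sqrt 2 := Real.sqrt_pos.2 (by norm_num)
  have e1 : Lm n u = (Real.sqrt 2)⁻¹ • (EuclideanSpace.equiv (Fin n) ℝ).symm u := rfl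
  have e2 : Lm n v = (Real.sqrt 2)⁻¹ • (EuclideanSpace.equiv (Fin n) ℝ).symm v := rfl
  rw [e1, e2, dist_smul₀, EuclideanSpace.dist_eq]
  have e3 : ∑ t, dist (((EuclideanSpace.equiv (Fin n) ℝ).symm u).ofLp t)
      (((EuclideanSpace.equiv (Fin n) ℝ).symm v).ofLp t) ^ 2 = 2 := by
    rw [← h]
    refine Finset.sum_congr rfl fun t _ => ?_
    rw [Real.dist_eq, sq_abs]
    rfl
  rw [e3, Real.norm_eq_abs, abs_of_pos (inv_pos.2 h2)]
  exact inv_mul_cancel₀ h2.ne'

theorem Lm_inj (u : Fin n → ℝ) (h : Lm n u = 0) : u = 0 := by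
  have h2 : (0 : ℝ) < Real.sqrt 2 := Real.sqrt_pos.2 (by norm_num)
  have e1 : Lm n u = (Real.sqrt 2)⁻¹ • (EuclideanSpace.equiv (Fin n) ℝ).symm u := rfl
  rw [e1, smul_eq_zero] at h
  rcases h with h | h
  · exact absurd h (inv_ne_zero h2.ne')
  · exact (EuclideanSpace.equiv (Fin n) ℝ).symm.map_eq_zero_iff.1 h

/-- two words which differ in exactly two places by one -/
theorem two_diff {a a' : W n} {y y' : Fin n} (hy : y ≠ y')
    (h1 : (((a y).val : ℝ) - ((a' y).val : ℝ)) ^ 2 = 1)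
    (h2 : (((a y').val : ℝ) - ((a' y').val : ℝ)) ^ 2 = 1)
    (h3 : ∀ w, w ≠ y → w ≠ y' → a w = a' w) : ∑ t, (pw a t - pw a' t) ^ 2 = 2 := by
  rw [Fintype.sum_eq_add y y' hy]
  · show (((a y).val : ℝ) - ((a' y).val : ℝ)) ^ 2 + (((a y').val : ℝ) - ((a' y').val : ℝ)) ^ 2 = 2
    rw [h1, h2]; norm_num
  · rintro w ⟨hw1, hw2⟩
    show (((a w).val : ℝ) - ((a' w).val : ℝ)) ^ 2 = 0
    rw [h3 w hw1 hw2, sub_self]; norm_num

theorem edge_diff {p q : Fin 3} {h a a' : W n} {u v v' : Fin n} (haa : a ≠ a')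
    (hpq : ((q.val : ℝ) - 1) ^ 2 = 1) (H1 : Pt p q h a u v) (H2 : Pt p q h a' u v') :
    ∑ t, (pw a t - pw a' t) ^ 2 = 2 := by
  obtain ⟨a1, a2, a3, a4, a5, a6⟩ := H1
  obtain ⟨b1, b2, b3, b4, b5, b6⟩ := H2
  have hvv : v ≠ v' := by
    intro h0
    apply haa
    funext w
    by_cases w1 : w = u
    · rw [w1, a4, b4]
    by_cases w2 : w = v
    · rw [w2, a5, h0, b5]
    · rw [a6 w w1 w2, b6 w w1 (by rw [← h0]; exact w2)]
  have hav' : a v' = 1 := by rw [a6 v' b3.symm hvv.symm, b2]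
  have hav : a' v = 1 := by rw [b6 v a3.symm hvv, a2]
  refine two_diff hvv ?_ ?_ ?_
  · rw [a5, hav]
    simpa using hpq
  · rw [b5, hav']
    have : (((1 : Fin 3).val : ℝ) - (q.val : ℝ)) ^ 2 = ((q.val : ℝ) - 1) ^ 2 := by
      simp; ring
    rw [this, hpq]
  · intro w h1 h2
    by_cases w1 : w = u
    · rw [w1, a4, b4]
    · rw [a6 w w1 h1, b6 w w1 h2]

theorem pf_RG (h1 : T_HG) (h2 : T_HE) : T_RG := by
  classical
  intro n h hh
  have hI : ∀ inst : DecidableEq (EuclideanSpace ℝ (Fin n)),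
      @Finset.image _ _ inst (Lm n) (hf h) =
        @Finset.image _ _ (fun a b => Classical.propDecidable (a = b)) (Lm n) (hf h) := fun inst => by
    rw [Subsingleton.elim inst (fun a b => Classical.propDecidable (a = b))]
  rw [hI]
  obtain ⟨t1, -, t3⟩ := Pool.Agent.H86.PMF.pf_TR1 (Fin n → ℝ) (EuclideanSpace ℝ (Fin n)) (Lm n)
    (hf h) (fun x _ hx => Lm_inj x hx)
  refine ⟨t1 6 (h1 n h hh), ?_, Lm n (pw h), ?_⟩
  · intro u v huv
    obtain ⟨x, hx, rfl⟩ := (@Finset.mem_image _ _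
      (fun a b => Classical.propDecidable (a = b)) _ _ _).1 huv.1
    obtain ⟨y, hy, rfl⟩ := (@Finset.mem_image _ _
      (fun a b => Classical.propDecidable (a = b)) _ _ _).1 huv.2.1
    obtain ⟨a, a', rfl, rfl, e3, e4, e5, t, e6, e7, e8⟩ := (h2 n h hh _ _).1 ((t3 x hx y hy).1 huv)
    apply Lm_dist
    obtain ⟨z, y, x1, x2, x3, x4⟩ := e3
    obtain ⟨z', y', y1, y2, y3, y4⟩ := e4
    have H1 := Pt_of x1 x2 x3 x4
    have H2 := Pt_of y1 y2 y3 y4
    have ht : t = z ∨ t = y := by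
      by_contra hcon
      push Not at hcon
      exact e8 (by rw [H1.2.2.2.2.2 t hcon.1 hcon.2, e6])
    have ht' : t = z' ∨ t = y' := by
      by_contra hcon
      push Not at hcon
      exact e8 (by rw [e7, H2.2.2.2.2.2 t hcon.1 hcon.2, e6])
    rcases ht with ht | ht
    · have htz : t = z' := by
        rcases ht' with h0 | h0
        · exact h0
        · exfalso
          have k1 : a t = 0 := by rw [ht]; exact H1.2.2.2.1
          have k2 : a' t = 2 := by rw [h0]; exact H2.2.2.2.2.1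
          rw [k1, k2] at e7
          exact absurd e7 (by decide)
      have hz : z' = z := by rw [← htz, ht]
      subst hz
      exact edge_diff e5 (by norm_num) H1 H2
    · have hty : t = y' := by
        rcases ht' with h0 | h0
        · exfalso
          have k1 : a t = 2 := by rw [ht]; exact H1.2.2.2.2.1
          have k2 : a' t = 0 := by rw [h0]; exact H2.2.2.2.1
          rw [k1, k2] at e7
          exact absurd e7 (by decide)
        · exact h0
      have hy : y' = y := by rw [← hty, ht]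
      subst hy
      exact edge_diff e5 (by norm_num) (Pt_swap H1) (Pt_swap H2)
  · intro u hu
    obtain ⟨x, hx, rfl⟩ := (@Finset.mem_image _ _
      (fun a b => Classical.propDecidable (a = b)) _ _ _).1 hu
    unfold hf at hx
    obtain ⟨a, ha, rfl⟩ := Finset.mem_image.1 hx
    obtain ⟨z, y, x1, x2, x3, x4⟩ := (Finset.mem_filter.1 ha).2
    have H1 := Pt_of x1 x2 x3 x4
    apply Lm_dist
    refine two_diff x3 ?_ ?_ ?_
    · rw [x1, H1.2.2.2.1]; norm_num
    · rw [x2, H1.2.2.2.2.1]; norm_num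
    · intro w h3 h4
      exact (H1.2.2.2.2.2 w h3 h4).symm

end Pool.Agent.H33.RHX
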